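import Pool.Agent.Y251.SF.Stm

/-!
# SF-GRON: a Gronwall type lemma
-/

set_option autoImplicit false

open MeasureTheory Set Filter Topology

namespace Pool.Agent.Y344.SF.Gron

theorem choose_x (X K a : ℝ) (hX : 0 < X) (hK : 0 ≤ K) (ha : 0 < a) :
    ∃ x : ℝ, 0 < x ∧ x ≤ X ∧ K * x ^ a ≤ 1 / 2 := by
  have h1 : (0 : ℝ) < 1 / (2 * (K + 1)) := by positivity
  refine ⟨min X ((1 / (2 * (K + 1))) ^ (1 / a)), lt_min hX (Real.rpow_pos_of_pos h1 _),
    min_le_left _ _, ?_⟩
  have h2 : (min X ((1 / (2 * (K + 1))) ^ (1 / a))) ^ a ≤ 1 / (2 * (K + 1)) := by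
    calc (min X ((1 / (2 * (K + 1))) ^ (1 / a))) ^ a
        ≤ ((1 / (2 * (K + 1))) ^ (1 / a)) ^ a := by
          refine Real.rpow_le_rpow (le_of_lt (lt_min hX (Real.rpow_pos_of_pos h1 _)))
            (min_le_right _ _) ha.le
      _ = 1 / (2 * (K + 1)) := by
          rw [← Real.rpow_mul h1.le, one_div_mul_cancel ha.ne', Real.rpow_one]
  calc K * (min X ((1 / (2 * (K + 1))) ^ (1 / a))) ^ a ≤ K * (1 / (2 * (K + 1))) := by gcongr
    _ ≤ 1 / 2 := by
      rw [mul_one_div, div_le_div_iff₀ (by positivity) (by norm_num)]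
      linarith

theorem gron : Pool.Agent.Y251.SF.S_GRON := by
  intro X M C η hX hM hC hη hCη
  set α := C * η with hα
  have hα0 : 0 ≤ α := mul_nonneg hC hη
  set M' := M + 1 with hM'
  have hM'0 : 0 < M' := by linarith
  obtain ⟨x1, hx1, hx1X, hx1b⟩ : ∃ x1 : ℝ, 0 < x1 ∧ x1 ≤ X ∧
      C * x1 * (M' * (X / x1) ^ α) ≤ 1 / 2 := by
    obtain ⟨x, h1, h2, h3⟩ := choose_x X (C * M' * X ^ α) (1 - α) hX (by positivity) (by linarith)
    refine ⟨x, h1, h2, le_trans (le_of_eq ?_) h3⟩
    rw [Real.div_rpow hX.le h1.le, Real.rpow_sub h1, Real.rpow_one]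
    ring
  refine ⟨2 * (M' * (X / x1) ^ α), fun f hfc hf0 hfη hfi => ?_⟩
  have hf2 : ContinuousOn (fun y => f y ^ 2) (Ioc 0 X) := hfc.pow 2
  have hsub : ∀ a, 0 < a → a ≤ X → Icc a X ⊆ Ioc 0 X := fun a ha _ y hy =>
    ⟨lt_of_lt_of_le ha hy.1, hy.2⟩
  have hii : ∀ a, 0 < a → a ≤ X → IntervalIntegrable (fun y => f y ^ 2) volume a X := by
    intro a ha haX
    apply ContinuousOn.intervalIntegrable
    rw [uIcc_of_le haX]
    exact hf2.mono (hsub a ha haX)
  let F : ℝ → ℝ := fun x => M' + C * ∫ y in x..X, f y ^ 2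
  have hder : ∀ x, 0 < x → x < X → HasDerivAt F (-(C * f x ^ 2)) x := by
    intro x hx hxX
    have hn : Ioo 0 X ∈ 𝓝 x := Ioo_mem_nhds hx hxX
    have hc : ContinuousAt (fun y => f y ^ 2) x :=
      (hf2.mono Ioo_subset_Ioc_self).continuousAt hn
    have hs : StronglyMeasurableAtFilter (fun y => f y ^ 2) (𝓝 x) volume :=
      (hf2.mono Ioo_subset_Ioc_self).stronglyMeasurableAtFilter isOpen_Ioo x ⟨hx, hxX⟩
    have h1 := intervalIntegral.integral_hasDerivAt_left (hii x hx hxX.le) hs hc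
    have h2 := (h1.const_mul C).const_add M'
    have e : C * -f x ^ 2 = -(C * f x ^ 2) := by ring
    rw [← e]
    exact h2
  have hcont : ∀ a, 0 < a → a ≤ X → ContinuousOn F (Icc a X) := by
    intro a ha haX
    have h1 : IntegrableOn (fun y => f y ^ 2) (uIcc a X) volume := by
      rw [uIcc_of_le haX]
      exact (hf2.mono (hsub a ha haX)).integrableOn_Icc
    have h2 := intervalIntegral.continuousOn_primitive_interval_left h1
    rw [uIcc_of_le haX] at h2
    exact continuousOn_const.add (continuousOn_const.mul h2)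
  have hFX : F X = M' := by
    change M' + C * ∫ y in X..X, f y ^ 2 = M'
    rw [intervalIntegral.integral_same]
    ring
  have hfF : ∀ x ∈ Ioc 0 X, f x ≤ F x := by
    intro x hx
    have h1 := hfi x hx
    change f x ≤ M' + C * ∫ y in x..X, f y ^ 2
    linarith
  have hF0 : ∀ x ∈ Ioc 0 X, 0 < F x := by
    intro x hx
    have h1 : 0 ≤ ∫ y in x..X, f y ^ 2 :=
      intervalIntegral.integral_nonneg hx.2 fun y _ => sq_nonneg _
    have h2 : 0 ≤ C * ∫ y in x..X, f y ^ 2 := mul_nonneg hC h1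
    change 0 < M' + C * ∫ y in x..X, f y ^ 2
    linarith
  have s1 : ∀ x ∈ Ioc 0 X, F x ≤ M' * (X / x) ^ α := by
    intro x hx
    have hmono : MonotoneOn (fun t : ℝ => t ^ α * F t) (Icc x X) := by
      have hd : ∀ t ∈ interior (Icc x X), HasDerivAt (fun t : ℝ => t ^ α * F t)
          (α * t ^ (α - 1) * F t + t ^ α * (-(C * f t ^ 2))) t := by
        intro t ht
        rw [interior_Icc] at ht
        have ht0 : 0 < t := lt_trans hx.1 ht.1
        exact (Real.hasDerivAt_rpow_const (Or.inl ht0.ne')).mul (hder t ht0 ht.2)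
      refine monotoneOn_of_deriv_nonneg (convex_Icc _ _) ?_ ?_ ?_
      · refine ContinuousOn.mul ?_ (hcont x hx.1 hx.2)
        exact continuousOn_id.rpow_const fun t ht => Or.inl (lt_of_lt_of_le hx.1 ht.1).ne'
      · exact fun t ht => (hd t ht).differentiableAt.differentiableWithinAt
      · intro t ht
        rw [(hd t ht).deriv]
        rw [interior_Icc] at ht
        have ht0 : 0 < t := lt_trans hx.1 ht.1
        have htm : t ∈ Ioc 0 X := ⟨ht0, ht.2.le⟩
        have e : t ^ α = t ^ (α - 1) * t := by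
          rw [← Real.rpow_add_one ht0.ne']
          congr 1
          ring
        rw [e]
        have h1 : 0 ≤ t ^ (α - 1) := Real.rpow_nonneg ht0.le _
        have h2 : t * (C * f t ^ 2) ≤ α * F t := by
          calc t * (C * f t ^ 2) = C * f t * (t * f t) := by ring
            _ ≤ C * f t * η := mul_le_mul_of_nonneg_left (hfη t htm) (mul_nonneg hC (hf0 t htm))
            _ = α * f t := by rw [hα]; ring
            _ ≤ α * F t := mul_le_mul_of_nonneg_left (hfF t htm) hα0
        have h3 : 0 ≤ t ^ (α - 1) * (α * F t - t * (C * f t ^ 2)) :=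
          mul_nonneg h1 (by linarith)
        linarith
    have h1 := hmono (left_mem_Icc.2 hx.2) (right_mem_Icc.2 hx.2) hx.2
    simp only [hFX] at h1
    rw [Real.div_rpow hX.le hx.1.le, ← mul_div_assoc, le_div_iff₀ (Real.rpow_pos_of_pos hx.1 _)]
    linarith
  have hx1m : x1 ∈ Ioc 0 X := ⟨hx1, hx1X⟩
  have hF1 := hF0 x1 hx1m
  have s2 : ∀ x, 0 < x → x ≤ x1 → F x ≤ 2 * F x1 := by
    intro x hx hxx
    have hxm : x ∈ Ioc 0 X := ⟨hx, le_trans hxx hx1X⟩
    have hmono : MonotoneOn (fun t : ℝ => C * t - (F t)⁻¹) (Icc x x1) := by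
      have hd : ∀ t ∈ interior (Icc x x1), HasDerivAt (fun t : ℝ => C * t - (F t)⁻¹)
          (C * 1 - (-(-(C * f t ^ 2)) / F t ^ 2)) t := by
        intro t ht
        rw [interior_Icc] at ht
        have ht0 : 0 < t := lt_trans hx ht.1
        have htX : t < X := lt_of_lt_of_le ht.2 hx1X
        exact ((hasDerivAt_id t).const_mul C).sub
          ((hder t ht0 htX).inv (hF0 t ⟨ht0, htX.le⟩).ne')
      refine monotoneOn_of_deriv_nonneg (convex_Icc _ _) ?_ ?_ ?_
      · refine ContinuousOn.sub (continuousOn_const.mul continuousOn_id) ?_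
        refine ContinuousOn.inv₀ ((hcont x hx hxm.2).mono (Icc_subset_Icc_right hx1X)) ?_
        intro t ht
        exact (hF0 t ⟨lt_of_lt_of_le hx ht.1, le_trans ht.2 hx1X⟩).ne'
      · exact fun t ht => (hd t ht).differentiableAt.differentiableWithinAt
      · intro t ht
        rw [(hd t ht).deriv]
        rw [interior_Icc] at ht
        have ht0 : 0 < t := lt_trans hx ht.1
        have htm : t ∈ Ioc 0 X := ⟨ht0, le_trans ht.2.le hx1X⟩
        have h1 : f t ^ 2 ≤ F t ^ 2 := pow_le_pow_left₀ (hf0 t htm) (hfF t htm) 2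
        have h2 : 0 < F t ^ 2 := pow_pos (hF0 t htm) 2
        have h3 : C * f t ^ 2 / F t ^ 2 ≤ C := by
          rw [div_le_iff₀ h2]
          exact mul_le_mul_of_nonneg_left h1 hC
        rw [neg_neg]
        linarith
    have h1 := hmono (left_mem_Icc.2 hxx) (right_mem_Icc.2 hxx) hxx
    simp only at h1
    have hF := hF0 x hxm
    have h2 : C * x1 * F x1 ≤ 1 / 2 := by
      refine le_trans ?_ hx1b
      exact mul_le_mul_of_nonneg_left (s1 x1 hx1m) (mul_nonneg hC hx1.le)
    have h3 : 0 ≤ C * x := mul_nonneg hC hx.le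
    have h4 : (F x1)⁻¹ - C * x1 ≤ (F x)⁻¹ := by linarith
    have h5 : C * x1 ≤ (2 * F x1)⁻¹ := by
      rw [mul_inv, ← div_eq_mul_inv, le_div_iff₀ hF1]
      linarith
    have h6 : (2 * F x1)⁻¹ ≤ (F x)⁻¹ := by
      have h7 : (F x1)⁻¹ = (2 * F x1)⁻¹ + (2 * F x1)⁻¹ := by
        rw [mul_inv]
        ring
      linarith
    exact (inv_le_inv₀ (by positivity) hF).1 h6
  have hB : 0 ≤ M' * (X / x1) ^ α := by positivity
  intro x hx
  rcases le_total x x1 with h | h
  · have h1 := s2 x hx.1 h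
    have h2 := s1 x1 hx1m
    have h3 := hfF x hx
    linarith
  · have h1 := s1 x hx
    have h3 := hfF x hx
    have h4 : M' * (X / x) ^ α ≤ M' * (X / x1) ^ α := by
      have h5 : X / x ≤ X / x1 := by gcongr
      have h6 : (X / x) ^ α ≤ (X / x1) ^ α :=
        Real.rpow_le_rpow (div_nonneg hX.le hx.1.le) h5 hα0
      exact mul_le_mul_of_nonneg_left h6 hM'0.le
    linarith

end Pool.Agent.Y344.SF.Gron
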